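import Pool.Agent.LibYA38.Main

open UpperHalfPlane hiding I

namespace Pool.Agent.Results.MP_eeb1a4_ag.AllMultiplicities

open US38 MW38 ZQ38 YA38

/-- **The Zilber-Pink conjecture for variations of mixed Hodge structure on curves: from mixed to
pure, all multiplicities.** Let `X = Δ \ ℍ` be a curve and `V` an admissible graded-polarized
variation of mixed Hodge structure over `ℚ` on `X`, of any rank and weights, with monodromy in the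
generic Mumford-Tate group `G`. Let `𝔪` be the Lie algebra of `G`, `𝔲` its unipotent part (the
elements which lower the weights), `𝔲_τ` the unipotent part at the point `τ`. For a maximal proper
`𝔪`-stable subspace `𝔫` of `𝔲` containing `[𝔲, 𝔲]` let `lev 𝔫` be `1` if `𝔲/𝔫` has multiplicity one
in `𝔲`, and the dimension of `Hom_𝔪(𝔲, 𝔲/𝔫)` otherwise. At all points outside a finite set of `X`,
`𝔲_τ` is contained in no `𝔫` such that `𝔲/𝔫` has no part of type `(a, b)` with `a, b ≥ - lev 𝔫`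
(there may be infinitely many such `𝔫`). If all `𝔫` are such, the Hodge locus of `V` is, outside
a finite set of points, contained in the Hodge locus of the graded pieces of `V`. -/
theorem result {κ : Type} [Fintype κ] {ι : Type} [Fintype ι] [DecidableEq ι] {wt p : ι → ℤ}
    {Q : Matrix ι ι ℚ} {Φ : ℂ → Matrix ι ι ℂ}
    {Δ : Subgroup (Matrix.SpecialLinearGroup (Fin 2) ℝ)}
    {σ : κ → Matrix.SpecialLinearGroup (Fin 2) ℝ} {h : κ → ℝ} {D : Set ℍ}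
    (hsymm : ∃ s : Equiv.Perm ι, ∀ j, wt (s j) = wt j ∧ p (s j) = wt j - p j)
    (hcurve : IsCurve Δ σ h D) (hvar : VMHS wt p (Q.map (algebraMap ℚ ℝ)) Φ)
    {𝔪 𝔲 : Submodule ℚ (Matrix ι ι ℚ)} (h𝔪 : 𝔪 = genLie wt p Φ) (h𝔲 : 𝔲 = 𝔪 ⊓ Low ℚ wt)
    (hmon : ∀ δ ∈ Δ, ∃ γ, MonQ wt p Q Φ δ γ ∧ InG 𝔪 γ)
    (hadm : ∀ i, AdmG wt p Q Φ 𝔪 Δ (σ i)) :
    ∃ S : Set ℍ, S.Finite ∧
      (∀ (𝔫 : Submodule ℚ (Matrix ι ι ℚ)) (τ : ℍ), MaxSt 𝔪 𝔲 𝔫 → LevT wt p Φ 𝔪 𝔲 𝔫 →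
        mtLie wt p (Φ τ) ⊓ Low ℚ wt ≤ 𝔫 → ∃ δ ∈ Δ, δ • τ ∈ S) ∧
      ((∀ 𝔫, MaxSt 𝔪 𝔲 𝔫 → LevT wt p Φ 𝔪 𝔲 𝔫) → ∀ τ ∈ hodgeLocus wt p Φ,
        τ ∉ hodgeLocus wt p (fun z => dg wt (Φ z)) → ∃ δ ∈ Δ, δ • τ ∈ S) := by
  subst h𝔪 h𝔲
  exact main_all hsymm hcurve hvar hmon hadm

end Pool.Agent.Results.MP_eeb1a4_ag.AllMultiplicities
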