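import Mathlib
import Pool.Agent.LibME94.H4

/-!
# Zilber-Pink for mixed variations with elliptic graded pieces over curves

Let `E` be a family of elliptic curves with nonconstant period over a curve `X`, and `V` any
admissible variation of mixed Hodge structure on `X` whose graded pieces are sums of
`Sym^k H¹(E/X)(n)` (any number of steps, any multiplicities). Let `u` be the Lie algebra of the
unipotent radical of the generic Mumford-Tate group.

Hypotheses. `u` has only Hodge types `(p, q)` with `p, q < 0`; its abelianization has no quotient
`ℚ(n)`; and either all punctures of `X` at which the local monodromy of `H¹(E)` is infinite are one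
puncture, or the abelianization of `u` is a sum of irreducible representations of distinct even
dimensions. The first two hypotheses can be read off from the graded pieces: they hold if
`k_j - n_j < -n_i` and `k_i ≠ k_j` whenever `k_j - 2 n_j < k_i - 2 n_i`
(`EllVar.T1_of` and `EllVar.T2_of` in `LibME94.H1` and `LibME94.H4`).

Conclusion. Outside finitely many points of `X` the Hodge locus of `V` consists of points with
complex multiplication at which the Mumford-Tate domain has codimension one, the codimension of a
point in the image of the period map; so the atypical locus is finite.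

The unipotent group may be nonabelian. At a point with complex multiplication the Mumford-Tate group
of the graded pieces is smaller, so the unipotent radical can a priori become smaller in many more
ways than at the other points.
-/

open UpperHalfPlane
open scoped MatrixGroups
open Pool.Agent.LibUB33 (Curve)
open Pool.Agent.LibME94

namespace Pool.Agent.Results.MP_eeb1a4_ag.MixedElliptic

/-- All but finitely many points of the Hodge locus of `V` are points with complex multiplication
whose Mumford-Tate domain has codimension `1` in the generic one. -/
theorem result {J : Type} [Fintype J] [DecidableEq J] (X : Curve) (kk : J → ℕ) (nn : J → ℤ)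
    (V : EllVar X kk nn) (hneg : V.NegTypes) (hconst : V.NoConst)
    (h : OnePlace X V.ρ ∨ V.DistinctEven) :
    {x : X.Pts | ∃ z : ℍ, (Quotient.mk'' z : X.Pts) = x ∧ z ∈ V.hodgeLocus ∧
      ¬ ((∃ a b c : ℤ, a ≠ 0 ∧ (a : ℂ) * (V.τ z : ℂ) ^ 2 + b * (V.τ z : ℂ) + c = 0) ∧
        V.genericDomDim = V.domDim z + 1)}.Finite := by
  obtain ⟨h1, h2⟩ := V.main hneg hconst h
  refine (h1.union h2).subset ?_
  rintro x ⟨z, rfl, hz, hn⟩
  by_cases hcm : LibEis68.IsCM (V.τ z : ℂ)
  · right
    refine ⟨z, ⟨hz, fun h3 => hn ⟨hcm, ?_⟩⟩, rfl⟩
    omega
  · left
    exact ⟨z, ⟨hz, hcm⟩, rfl⟩

end Pool.Agent.Results.MP_eeb1a4_ag.MixedElliptic
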