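import Pool.Agent.LibAD67.Fin

open Filter Topology

namespace Pool.Agent.Results.MP_eeb1a4_ag.MixedToPureAllDim

open MW38 ZQ38 AD67

/-- **The Zilber-Pink conjecture for variations of mixed Hodge structure in every dimension: from
mixed to pure, with a uniform bound.** Let `π : X → {F ≠ 0} ⊆ ℂ^(n+1)` be a covering with `s` sheets,
`deg F ≤ e`, and `V` a graded-polarized variation of mixed Hodge structure over `ℚ` on `X`, of any
rank and weights, of moderate growth (exponent `c`). Let `𝔪 x` be the Lie algebra of the generic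
Mumford-Tate group in the flat basis at `x`, `𝔲 x` its unipotent part (the elements which lower the
weights), `𝔲_x` the unipotent part at the point `x`. Let `S x` be a locally constant set of at most
`m` maximal proper `𝔪`-stable subspaces of `𝔲` containing `[𝔲, 𝔲]`, such that `𝔲/𝔫` has no part of
type `(-1,-1)`, `(-1,0)` or `(0,-1)` for `𝔫 ∈ S x`. Then the points `x` of `X` such that `𝔲_x ⊆ 𝔫` for
some `𝔫 ∈ S x` lie in a hypersurface `G ∘ π = 0` whose degree is bounded only in terms of `n`, `s`,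
`e`, `c`, `m`, the rank, the Hodge numbers (`|p| ≤ K`) and the weights (of length less than `J`). If
`S x` contains all the maximal subspaces, all the points which are special for `V` but not for its
graded pieces lie in this hypersurface. -/
theorem result {ι : Type} [Fintype ι] [DecidableEq ι] {wt p : ι → ℤ} {n s c e m K J : ℕ}
    {X : Type} [TopologicalSpace X] {Q : Matrix ι ι ℚ} {F : MvPolynomial (Fin (n + 1)) ℂ}
    {π : X → Fin (n + 1) → ℂ} {Φ : X → (Fin (n + 1) → ℂ) → Matrix ι ι ℂ}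
    {S : X → Finset (Submodule ℚ (Matrix ι ι ℚ))}
    (hsymm : ∃ σ : Equiv.Perm ι, ∀ j, wt (σ j) = wt j ∧ p (σ j) = wt j - p j)
    (hK : ∀ j, |p j| ≤ K) (hJ : ∀ i j, wt i - wt j < J)
    (hF : F ≠ 0) (he : F.totalDegree ≤ e) (hcov : IsCov F s π) (hvar : VarX wt p Q π Φ)
    (hgr : ModGr F wt p π Φ c) (hloc : IsLoc wt Q π Φ S) (hm : ∀ x, (S x).card ≤ m)
    {𝔪 𝔲 : X → Submodule ℚ (Matrix ι ι ℚ)} (h𝔪 : ∀ x, 𝔪 x = genAt wt p (Φ x) (π x))
    (h𝔲 : ∀ x, 𝔲 x = 𝔪 x ⊓ Low ℚ wt) (hS : ∀ x, ∀ 𝔫 ∈ S x, MaxSt (𝔪 x) (𝔲 x) 𝔫)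
    (htypes : ∀ x, ∀ 𝔫 ∈ S x, ∀ t : ℤ × ℤ, (t = (-1, -1) ∨ t = (-1, 0) ∨ t = (0, -1)) →
      ∀ᶠ v in 𝓝 (π x), hab wt p (Φ x v) (𝔲 x) t = hab wt p (Φ x v) 𝔫 t) :
    ∃ G : MvPolynomial (Fin (n + 1)) ℂ, G ≠ 0 ∧
      2 * G.totalDegree ≤ (n + 1).factorial * s * c * (e + 1) * m *
        (4 * K + 4 * (Fintype.card ι + 1) * (J + 2) * (2 * K + 2) +
          12 * Fintype.card ι ^ 3 * (2 * K + 1) * (2 * K + 2)) ∧
      (∀ x, (∃ 𝔫 ∈ S x, mtLie wt p (Φ x (π x)) ⊓ Low ℚ wt ≤ 𝔫) →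
        MvPolynomial.eval (π x) G = 0) ∧
      ((∀ x 𝔫, MaxSt (𝔪 x) (𝔲 x) 𝔫 → 𝔫 ∈ S x) →
        ∀ x, mtLie wt p (Φ x (π x)) ≠ 𝔪 x →
          mtLie wt p (dg wt (Φ x (π x))) = genAt wt p (fun v => dg wt (Φ x v)) (π x) →
          MvPolynomial.eval (π x) G = 0) := by
  obtain rfl : 𝔪 = fun x => genAt wt p (Φ x) (π x) := funext h𝔪
  obtain rfl : 𝔲 = fun x => genAt wt p (Φ x) (π x) ⊓ Low ℚ wt := funext h𝔲
  exact final hsymm hK hJ hF he hcov hvar hgr hloc hm hS htypes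

end Pool.Agent.Results.MP_eeb1a4_ag.MixedToPureAllDim
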