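import Pool.Agent.LibZE25.Main3

open UpperHalfPlane hiding I

namespace Pool.Agent.Results.MP_eeb1a4_ag.RealHodgeClasses

open SP38 US38 MW38 Pool.Agent.LibZE25

/-- Let `V` be an admissible variation of mixed Hodge structure of weights at most `0` on a curve
`Δ \ ℍ`, and `m` at least the rank of `Gr_0`. Suppose that no Hodge number `h^{a,b}`, `a + b < 0`,
`a, b ≥ -m`, is nonzero. Then outside finitely many points of the curve every real Hodge class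
`u` is a (multivalued) flat section of `F^{1-m}`, and a Hodge class at every point if its image in
`Gr_0` is invariant under the monodromy. -/
theorem result {κ : Type} [Fintype κ] {ι : Type} [Fintype ι] [DecidableEq ι] {wt p : ι → ℤ}
    {Q : Matrix ι ι ℝ} {Φ : ℂ → Matrix ι ι ℂ}
    {Δ : Subgroup (Matrix.SpecialLinearGroup (Fin 2) ℝ)}
    {σ : κ → Matrix.SpecialLinearGroup (Fin 2) ℝ} {h : κ → ℝ} {D : Set ℍ} {m : ℕ}
    (hsymm : ∃ s : Equiv.Perm ι, ∀ j, wt (s j) = wt j ∧ p (s j) = wt j - p j)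
    (hcurve : IsCurve Δ σ h D) (hvar : VMHS wt p Q Φ) (hdesc : Desc wt p Q Φ Δ)
    (hadm : ∀ i, Adm wt p Q Φ Δ (σ i)) (hweights : ∀ i, wt i ≤ 0)
    (hm : Fintype.card {i // wt i = 0} ≤ m)
    (htypes : ∀ i, wt i < 0 → p i < -(m : ℤ) ∨ wt i - p i < -(m : ℤ)) :
    ∃ S : Set ℍ, S.Finite ∧ ∀ (τ : ℍ) (u : ι → ℝ), (fun i => (u i : ℂ)) ∈ Fl p (Φ (τ : ℂ)) 0 →
      (∃ δ ∈ Δ, δ • τ ∈ S) ∨
      ((∀ τ' : ℍ, (fun i => (u i : ℂ)) ∈ Fl p (Φ (τ' : ℂ)) (1 - m)) ∧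
        (DescU wt p Q Φ Δ u → (∀ i, AdmU wt p Q Φ Δ (σ i) u) →
          ∀ τ' : ℍ, (fun i => (u i : ℂ)) ∈ Fl p (Φ (τ' : ℂ)) 0)) :=
  main3 hcurve hvar hdesc hadm hweights hsymm hm htypes

end Pool.Agent.Results.MP_eeb1a4_ag.RealHodgeClasses
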